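import Mathlib

/-!
# Complements of multicone graphs need not be determined by their adjacency spectrum (MP_cd2ba9_co)
-/

set_option autoImplicit false

open Finset Polynomial

namespace Pool.Agent.Results.MP_cd2ba9_co.PrismMate

/-- the adjacency matrix of a graph -/
noncomputable def adj {V : Type} (G : SimpleGraph V) : Matrix V V ℝ :=
  Matrix.of fun x y => open Classical in if G.Adj x y then 1 else 0

/-- the adjacency spectrum: the multiset of eigenvalues (roots of the characteristic polynomial) -/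
noncomputable def spec {V : Type} [Fintype V] [DecidableEq V] (G : SimpleGraph V) : Multiset ℝ :=
  (adj G).charpoly.roots

/-- `G` is determined by its adjacency spectrum -/
def IsDS {V : Type} [Fintype V] [DecidableEq V] (G : SimpleGraph V) : Prop :=
  ∀ (W : Type) [Fintype W] [DecidableEq W] (H : SimpleGraph W), spec H = spec G → Nonempty (H ≃g G)

/-- the join of two graphs -/
def join {V W : Type} (G : SimpleGraph V) (H : SimpleGraph W) : SimpleGraph (V ⊕ W) where
  Adj
    | Sum.inl x, Sum.inl y => G.Adj x y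
    | Sum.inr x, Sum.inr y => H.Adj x y
    | Sum.inl _, Sum.inr _ => True
    | Sum.inr _, Sum.inl _ => True
  symm := ⟨by rintro (x | x) (y | y) h <;> first | exact h.symm | trivial⟩
  loopless := ⟨by rintro (x | x) h <;> exact h.ne rfl⟩

/-- the disjoint union of `m` copies of the cycle `C_n` -/
def copies (m n : ℕ) : SimpleGraph (Fin m × Fin n) where
  Adj x y := x.1 = y.1 ∧ (SimpleGraph.cycleGraph n).Adj x.2 y.2
  symm := ⟨fun _ _ h => ⟨h.1.symm, h.2.symm⟩⟩
  loopless := ⟨fun _ h => h.2.ne rfl⟩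

/-- the multicone graph: the join of `K_w` and `m` copies of `C_n` -/
def multicone (w m n : ℕ) : SimpleGraph (Fin w ⊕ (Fin m × Fin n)) :=
  join (⊤ : SimpleGraph (Fin w)) (copies m n)

/-! ### The core of the two graphs -/

/-- adjacency in the cycle `C_6` -/
def cyc (i j : Fin 6) : Bool := i - j == 1 || j - i == 1

/-- the adjacency matrix of the prism plus two isolated vertices -/
def TZ : (Fin 2 ⊕ Fin 6) → (Fin 2 ⊕ Fin 6) → ℤ
  | Sum.inr i, Sum.inr j => if i ≠ j ∧ cyc i j = false then 1 else 0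
  | _, _ => 0

/-- adjacency of the mate: an edge with two common neighbours and two leaves at each end -/
def hAdj : (Fin 2 ⊕ Fin 6) → (Fin 2 ⊕ Fin 6) → Bool
  | Sum.inl i, Sum.inl j => i != j
  | Sum.inl i, Sum.inr j => j.val < 2 || (i.val == 0 && j.val < 4) || (i.val == 1 && 4 ≤ j.val)
  | Sum.inr j, Sum.inl i => j.val < 2 || (i.val == 0 && j.val < 4) || (i.val == 1 && 4 ≤ j.val)
  | Sum.inr _, Sum.inr _ => false

def HZ (x y : Fin 2 ⊕ Fin 6) : ℤ := if hAdj x y = true then 1 else 0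

def tabQ : List (List ℤ) :=
  [[0, 0, 1, -1, 0, 0, 0, 0],
   [0, 0, 0, 0, 1, -1, 0, 0],
   [8, 6, -2, -2, 0, 0, 0, -4],
   [6, 4, 1, 1, -3, -3, 0, 2],
   [4, -2, 3, 3, 3, 3, 2, 4],
   [-2, 0, 6, 6, 2, 2, 6, 2],
   [0, 2, 5, 5, 3, 3, -2, 0],
   [2, 8, -1, -1, 1, 1, 0, 2]]

def tabR : List (List ℤ) :=
  [[0, 0, 44, 28, 56, -20, -4, -32],
   [0, 0, 4, 8, -44, 20, 16, 68],
   [360, 0, -4, 32, -16, 20, 44, -28],
   [-360, 0, -4, 32, -16, 20, 44, -28],
   [0, 360, 18, -64, 42, -10, 12, 26],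
   [0, -360, 18, -64, 42, -10, 12, 26],
   [0, 0, 38, -24, 2, 90, -88, 6],
   [0, 0, -82, 36, 62, -30, -28, 66]]

def idx : Fin 2 ⊕ Fin 6 → ℕ
  | Sum.inl i => i.val
  | Sum.inr i => 2 + i.val

def ent (t : List (List ℤ)) (x y : Fin 2 ⊕ Fin 6) : ℤ := (t.getD (idx x) []).getD (idx y) 0

theorem sum8 {R : Type} [AddCommMonoid R] (f : Fin 2 ⊕ Fin 6 → R) :
    ∑ x, f x = (f (Sum.inl 0) + f (Sum.inl 1)) + (f (Sum.inr 0) + f (Sum.inr 1) + f (Sum.inr 2)
      + f (Sum.inr 3) + f (Sum.inr 4) + f (Sum.inr 5)) := by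
  rw [Fintype.sum_sum_type, Fin.sum_univ_two, Fin.sum_univ_six]

theorem inter : ∀ x y, ∑ z, TZ x z * ent tabQ z y = ∑ z, ent tabQ x z * HZ z y := by
  intro x y
  rw [sum8, sum8]
  revert x y
  decide +kernel

theorem inv : ∀ x y, ∑ z, ent tabQ x z * ent tabR z y = if x = y then 720 else 0 := by
  intro x y
  rw [sum8]
  revert x y
  decide +kernel

noncomputable def toM (f : (Fin 2 ⊕ Fin 6) → (Fin 2 ⊕ Fin 6) → ℤ) :
    Matrix (Fin 2 ⊕ Fin 6) (Fin 2 ⊕ Fin 6) ℝ := Matrix.of fun x y => (f x y : ℝ)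

theorem interM : toM TZ * toM (ent tabQ) = toM (ent tabQ) * toM HZ := by
  ext x y
  rw [Matrix.mul_apply, Matrix.mul_apply]
  simp only [toM, Matrix.of_apply]
  have := inter x y
  have h2 : ((∑ z, TZ x z * ent tabQ z y : ℤ) : ℝ) = ((∑ z, ent tabQ x z * HZ z y : ℤ) : ℝ) := by
    rw [this]
  push_cast at h2
  exact h2

theorem invM : toM (ent tabQ) * toM (ent tabR) = (720 : ℝ) • 1 := by
  ext x y
  rw [Matrix.mul_apply, Matrix.smul_apply, Matrix.one_apply]
  simp only [toM, Matrix.of_apply]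
  have := inv x y
  have h2 : ((∑ z, ent tabQ x z * ent tabR z y : ℤ) : ℝ) = ((if x = y then 720 else 0 : ℤ) : ℝ) := by
    rw [this]
  push_cast at h2
  rw [h2]
  by_cases h : x = y
  · rw [if_pos h, if_pos h]; simp
  · rw [if_neg h, if_neg h]; simp

/-- similar matrices have the same characteristic polynomial -/
theorem charpoly_eq_of {n : Type} [Fintype n] [DecidableEq n] (A B Q R : Matrix n n ℝ) (c : ℝ)
    (hc : c ≠ 0) (h : A * Q = Q * B) (hQR : Q * R = c • 1) : A.charpoly = B.charpoly := by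
  have h1 : A.charmatrix * Q.map C = Q.map C * B.charmatrix := by
    rw [Matrix.charmatrix, Matrix.charmatrix, sub_mul, mul_sub]
    congr 1
    · exact (Matrix.scalar_commute (X : ℝ[X]) (fun r => mul_comm _ _) (Q.map C)).eq
    · have := congrArg (fun M : Matrix n n ℝ => M.map C) h
      simp only [Matrix.map_mul] at this
      exact this
  have h2 := congrArg Matrix.det h1
  rw [Matrix.det_mul, Matrix.det_mul] at h2
  have h3 : (Q.map C).det ≠ (0 : ℝ[X]) := by
    have h4 : (Q.map C).det = C Q.det := by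
      rw [← RingHom.mapMatrix_apply, ← RingHom.map_det]
    rw [h4, Ne, Polynomial.C_eq_zero]
    intro h5
    have h6 := congrArg Matrix.det hQR
    rw [Matrix.det_mul, h5, zero_mul, Matrix.det_smul, Matrix.det_one, mul_one] at h6
    exact pow_ne_zero _ hc h6.symm
  have h7 : A.charpoly * (Q.map C).det = B.charpoly * (Q.map C).det := by
    rw [Matrix.charpoly, Matrix.charpoly, h2, mul_comm]
  exact mul_right_cancel₀ h3 h7

theorem charpoly_core : (toM TZ).charpoly = (toM HZ).charpoly :=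
  charpoly_eq_of _ _ (toM (ent tabQ)) (toM (ent tabR)) 720 (by norm_num) interM invM

/-! ### The two graphs -/

theorem hAdj_symm : ∀ x y, hAdj x y = true → hAdj y x = true := by decide

theorem hAdj_irrefl : ∀ x, ¬ hAdj x x = true := by decide

/-- the mate: `k` isolated vertices and the graph with adjacency `hAdj` -/
def H (k : ℕ) : SimpleGraph (Fin k ⊕ (Fin 2 ⊕ Fin 6)) where
  Adj
    | Sum.inr x, Sum.inr y => hAdj x y = true
    | _, _ => False
  symm := ⟨by
    rintro (x | x) (y | y) h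
    · exact h
    · exact h
    · exact h
    · exact hAdj_symm x y h⟩
  loopless := ⟨by
    rintro (x | x) h
    · exact h
    · exact hAdj_irrefl x h⟩

theorem adj_H (k : ℕ) : adj (H k) = Matrix.fromBlocks 0 0 0 (toM HZ) := by
  ext (x | x) (y | y)
  · simp [adj, H]
  · simp [adj, H]
  · simp [adj, H]
  · rw [Matrix.fromBlocks_apply₂₂]
    simp only [adj, H, toM, HZ, Matrix.of_apply]
    by_cases h : hAdj x y = true
    · rw [if_pos h, if_pos h]; simp
    · rw [if_neg h, if_neg h]; simp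

/-- the bijection between the two vertex sets -/
def e (k : ℕ) : Fin (k + 2) ⊕ (Fin 1 × Fin 6) ≃ Fin k ⊕ (Fin 2 ⊕ Fin 6) :=
  (Equiv.sumCongr finSumFinEquiv.symm (Equiv.uniqueProd (Fin 6) (Fin 1))).trans
    (Equiv.sumAssoc (Fin k) (Fin 2) (Fin 6))

theorem e_symm_inl (k : ℕ) (x : Fin k) : (e k).symm (Sum.inl x) = Sum.inl (Fin.castAdd 2 x) := by
  simp [e]

theorem e_symm_inl' (k : ℕ) (x : Fin 2) :
    (e k).symm (Sum.inr (Sum.inl x)) = Sum.inl (Fin.natAdd k x) := by
  simp [e]

theorem e_symm_inr (k : ℕ) (x : Fin 6) :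
    (e k).symm (Sum.inr (Sum.inr x)) = Sum.inr (0, x) := by
  simp [e]

theorem cyc_iff (i j : Fin 6) : (SimpleGraph.cycleGraph 6).Adj i j ↔ cyc i j = true := by
  rw [SimpleGraph.cycleGraph_adj]
  simp [cyc]

theorem target_inr (k : ℕ) (i j : Fin 6) :
    (multicone (k + 2) 1 6)ᶜ.Adj (Sum.inr (0, i)) (Sum.inr (0, j)) ↔ i ≠ j ∧ cyc i j = false := by
  rw [SimpleGraph.compl_adj]
  simp only [multicone, join, copies, cyc_iff, true_and, ne_eq, Sum.inr.injEq, Prod.mk.injEq,
    Bool.not_eq_true]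

theorem target_inl (w : ℕ) (x : Fin w) (y : Fin w ⊕ (Fin 1 × Fin 6)) :
    ¬ (multicone w 1 6)ᶜ.Adj (Sum.inl x) y := by
  rw [SimpleGraph.compl_adj]
  rintro ⟨h1, h2⟩
  apply h2
  rcases y with y | y
  · simp only [multicone, join, SimpleGraph.top_adj]
    intro h
    exact h1 (by rw [h])
  · simp only [multicone, join]

theorem adj_target (k : ℕ) :
    Matrix.reindex (e k) (e k) (adj (multicone (k + 2) 1 6)ᶜ)
      = Matrix.fromBlocks 0 0 0 (toM TZ) := by
  have hz : ∀ (x : Fin (k + 2)) (y : Fin (k + 2) ⊕ (Fin 1 × Fin 6)),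
      adj (multicone (k + 2) 1 6)ᶜ (Sum.inl x) y = 0 := by
    intro x y
    simp only [adj, Matrix.of_apply]
    rw [if_neg (target_inl _ x y)]
  have hz' : ∀ (x : Fin (k + 2)) (y : Fin (k + 2) ⊕ (Fin 1 × Fin 6)),
      adj (multicone (k + 2) 1 6)ᶜ y (Sum.inl x) = 0 := by
    intro x y
    simp only [adj, Matrix.of_apply]
    rw [if_neg (fun h => target_inl _ x y h.symm)]
  ext (x | x) (y | y)
  · rw [Matrix.reindex_apply, Matrix.submatrix_apply, e_symm_inl, hz]; simp
  · rw [Matrix.reindex_apply, Matrix.submatrix_apply, e_symm_inl, hz]; simp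
  · rw [Matrix.reindex_apply, Matrix.submatrix_apply, e_symm_inl, hz']; simp
  · rw [Matrix.reindex_apply, Matrix.submatrix_apply, Matrix.fromBlocks_apply₂₂]
    rcases x with x | x
    · rw [e_symm_inl', hz]
      simp [toM, TZ]
    · rcases y with y | y
      · rw [e_symm_inl', hz']
        simp [toM, TZ]
      · rw [e_symm_inr, e_symm_inr]
        simp only [adj, toM, TZ, Matrix.of_apply]
        by_cases h : x ≠ y ∧ cyc x y = false
        · rw [if_pos ((target_inr k x y).2 h), if_pos h]; simp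
        · rw [if_neg (fun h' => h ((target_inr k x y).1 h')), if_neg h]; simp

theorem cospectral (k : ℕ) : spec (H k) = spec (multicone (k + 2) 1 6)ᶜ := by
  unfold spec
  congr 1
  rw [← Matrix.charpoly_reindex (e k) (adj (multicone (k + 2) 1 6)ᶜ), adj_target, adj_H,
    Matrix.charpoly_fromBlocks_zero₁₂, Matrix.charpoly_fromBlocks_zero₁₂, charpoly_core]

theorem core_two : ∀ i j : Fin 6, (i ≠ j ∧ cyc i j = false) →
    ∃ j', j' ≠ j ∧ i ≠ j' ∧ cyc i j' = false := by
  decide

theorem not_iso (k : ℕ) : ¬ Nonempty (H k ≃g (multicone (k + 2) 1 6)ᶜ) := by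
  rintro ⟨f⟩
  -- a leaf of the mate and its neighbour
  have h1 : (H k).Adj (Sum.inr (Sum.inr 2)) (Sum.inr (Sum.inl 0)) := by
    show hAdj _ _ = true
    decide
  have h2 : ∀ y, (H k).Adj (Sum.inr (Sum.inr 2)) y → y = Sum.inr (Sum.inl 0) := by
    rintro (y | y) hy
    · exact absurd hy (by simp [H])
    · have h3 : ∀ y, hAdj (Sum.inr 2) y = true → y = Sum.inl 0 := by decide
      rw [h3 y hy]
  have h4 : (multicone (k + 2) 1 6)ᶜ.Adj (f (Sum.inr (Sum.inr 2))) (f (Sum.inr (Sum.inl 0))) :=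
    f.map_rel_iff.2 h1
  have h5 : ∀ z, (multicone (k + 2) 1 6)ᶜ.Adj (f (Sum.inr (Sum.inr 2))) z →
      z = f (Sum.inr (Sum.inl 0)) := by
    intro z hz
    have h6 : (H k).Adj (Sum.inr (Sum.inr 2)) (f.symm z) := by
      rw [← f.map_rel_iff, RelIso.apply_symm_apply]
      exact hz
    rw [← h2 _ h6, RelIso.apply_symm_apply]
  generalize f (Sum.inr (Sum.inr 2)) = a at h4 h5
  generalize f (Sum.inr (Sum.inl 0)) = b at h4 h5
  rcases a with a | ⟨a0, a⟩
  · exact target_inl _ _ _ h4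
  · rcases b with b | ⟨b0, b⟩
    · exact target_inl _ _ _ h4.symm
    · have ha0 : a0 = 0 := Subsingleton.elim _ _
      have hb0 : b0 = 0 := Subsingleton.elim _ _
      subst ha0 hb0
      obtain ⟨c, hc1, hc2⟩ := core_two a b ((target_inr k a b).1 h4)
      have h7 := h5 (Sum.inr (0, c)) ((target_inr k a c).2 hc2)
      apply hc1
      simpa using h7

/-- **Q1 of MP_cd2ba9_co: no.** For every `w ≥ 2` the complement of the multicone graph
`K_w ∇ C_6` is not determined by its adjacency spectrum. -/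
theorem result (w : ℕ) (hw : 2 ≤ w) : ¬ IsDS (multicone w 1 6)ᶜ := by
  obtain ⟨k, rfl⟩ : ∃ k, w = k + 2 := ⟨w - 2, by omega⟩
  intro h
  exact not_iso k (h _ (H k) (cospectral k))

end Pool.Agent.Results.MP_cd2ba9_co.PrismMate
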